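import Mathlib

set_option linter.unusedSectionVars false
set_option linter.style.haveILetI false

/-!
Counting argument for sets of totally isotropic planes of `H(9, q ^ 2)`.
-/

namespace Pool.Agent.Helper76.Herm

open Finset

variable {F : Type} [Field F] [Fintype F] {q : ℕ}

/-- The Hermitian form `∑ x_i y_i ^ q`. -/
def h (q : ℕ) (x y : Fin 10 → F) : F := ∑ i : Fin 10, x i * y i ^ q

theorem h_add_left (x x' y : Fin 10 → F) : h q (x + x') y = h q x y + h q x' y := by
  simp [h, add_mul, Finset.sum_add_distrib]

theorem h_smul_left (c : F) (x y : Fin 10 → F) : h q (c • x) y = c * h q x y := by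
  simp [h, Finset.mul_sum, mul_assoc]

theorem h_zero_left (y : Fin 10 → F) : h q 0 y = 0 := by simp [h]

theorem h_neg_left (x y : Fin 10 → F) : h q (-x) y = - h q x y := by
  simp [h]

theorem h_sub_left (x x' y : Fin 10 → F) : h q (x - x') y = h q x y - h q x' y := by
  rw [sub_eq_add_neg, h_add_left, h_neg_left, sub_eq_add_neg]

theorem two_le (hF : Fintype.card F = q ^ 2) : 2 ≤ q := by
  have h1 : 1 < Fintype.card F := Fintype.one_lt_card
  rw [hF] at h1
  by_contra hc
  have : q ≤ 1 := by omega
  interval_cases q <;> simp at h1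

theorem pow_q_add (hF : Fintype.card F = q ^ 2) (a b : F) : (a + b) ^ q = a ^ q + b ^ q := by
  obtain ⟨p, hp⟩ := CharP.exists F
  haveI := hp
  obtain ⟨n, hpp, hn⟩ := FiniteField.card F p
  haveI : Fact p.Prime := ⟨hpp⟩
  have hd : q ∣ p ^ (n : ℕ) := by
    rw [← hn, hF]
    exact dvd_pow_self q (by norm_num)
  obtain ⟨m, -, hm⟩ := (Nat.dvd_prime_pow hpp).1 hd
  rw [hm]
  exact add_pow_char_pow a b p m

theorem pow_q_q (hF : Fintype.card F = q ^ 2) (a : F) : (a ^ q) ^ q = a := by
  rw [← pow_mul, ← sq, ← hF]
  exact FiniteField.pow_card a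

theorem pow_q_zero (hF : Fintype.card F = q ^ 2) : (0 : F) ^ q = 0 := by
  have := two_le hF
  exact zero_pow (by omega)

/-- The `q`-power map as a ring homomorphism. -/
def frob (hF : Fintype.card F = q ^ 2) : F →+* F where
  toFun a := a ^ q
  map_one' := one_pow q
  map_mul' a b := mul_pow a b q
  map_zero' := pow_q_zero hF
  map_add' := pow_q_add hF

theorem frob_apply (hF : Fintype.card F = q ^ 2) (a : F) : frob hF a = a ^ q := rfl

theorem h_eq (hF : Fintype.card F = q ^ 2) (x y : Fin 10 → F) :
    h q x y = ∑ i, x i * frob hF (y i) := rfl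

theorem h_add_right (hF : Fintype.card F = q ^ 2) (x y y' : Fin 10 → F) :
    h q x (y + y') = h q x y + h q x y' := by
  simp [h_eq hF, mul_add, Finset.sum_add_distrib]

theorem h_smul_right (hF : Fintype.card F = q ^ 2) (c : F) (x y : Fin 10 → F) :
    h q x (c • y) = c ^ q * h q x y := by
  simp only [h_eq hF, Pi.smul_apply, smul_eq_mul, map_mul, Finset.mul_sum]
  refine Finset.sum_congr rfl fun i _ => ?_
  rw [frob_apply hF c]
  ring

theorem h_swap (hF : Fintype.card F = q ^ 2) (x y : Fin 10 → F) : h q y x = (h q x y) ^ q := by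
  have h1 : (h q x y) ^ q = frob hF (h q x y) := rfl
  rw [h1, h, h, map_sum]
  refine Finset.sum_congr rfl fun i _ => ?_
  rw [map_mul, frob_apply, frob_apply, pow_q_q hF, mul_comm]

theorem h_zero_right (hF : Fintype.card F = q ^ 2) (x : Fin 10 → F) : h q x 0 = 0 := by
  simp [h_eq hF]

theorem h_neg_right (hF : Fintype.card F = q ^ 2) (x y : Fin 10 → F) :
    h q x (-y) = - h q x y := by
  simp [h_eq hF]

theorem h_sub_right (hF : Fintype.card F = q ^ 2) (x y y' : Fin 10 → F) :
    h q x (y - y') = h q x y - h q x y' := by
  rw [sub_eq_add_neg, h_add_right hF, h_neg_right hF, sub_eq_add_neg]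

theorem h_swap_zero (hF : Fintype.card F = q ^ 2) {x y : Fin 10 → F} (hxy : h q x y = 0) :
    h q y x = 0 := by
  rw [h_swap hF x y, hxy, pow_q_zero hF]

/-- The orthogonal complement. -/
def perp (q : ℕ) (W : Submodule F (Fin 10 → F)) : Submodule F (Fin 10 → F) where
  carrier := {v | ∀ u ∈ W, h q v u = 0}
  add_mem' := by
    intro a b ha hb u hu
    rw [h_add_left, ha u hu, hb u hu, add_zero]
  zero_mem' := by
    intro u _
    exact h_zero_left u
  smul_mem' := by
    intro c x hx u hu
    rw [h_smul_left, hx u hu, mul_zero]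

theorem mem_perp {W : Submodule F (Fin 10 → F)} {v : Fin 10 → F} :
    v ∈ perp q W ↔ ∀ u ∈ W, h q v u = 0 := Iff.rfl

theorem finrank_perp (hF : Fintype.card F = q ^ 2) (W : Submodule F (Fin 10 → F)) :
    Module.finrank F (perp q W) + Module.finrank F W = 10 := by
  let b := Module.finBasis F W
  let A : Matrix (Fin (Module.finrank F W)) (Fin 10) F :=
    fun i j => ((b i : W) : Fin 10 → F) j ^ q
  have hli : LinearIndependent F A.row := by
    rw [Fintype.linearIndependent_iff]
    intro g hg
    have h1 : ∑ i, (g i ^ q) • b i = 0 := by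
      apply Subtype.ext
      rw [Submodule.coe_sum, Submodule.coe_zero]
      funext j
      have h2 := congrFun hg j
      simp only [Finset.sum_apply, Pi.smul_apply, smul_eq_mul, Pi.zero_apply, Submodule.coe_smul,
        Matrix.row] at h2 ⊢
      have h3 := congrArg (frob hF) h2
      rw [map_sum, map_zero] at h3
      rw [← h3]
      refine Finset.sum_congr rfl fun i _ => ?_
      rw [map_mul, frob_apply, frob_apply]
      simp only [A]
      rw [pow_q_q hF]
    have h4 := Fintype.linearIndependent_iff.1 b.linearIndependent _ h1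
    intro i
    have h5 := h4 i
    have := two_le hF
    exact pow_eq_zero_iff (by omega) |>.1 h5
  have hrank : A.rank = Module.finrank F W := by
    rw [hli.rank_matrix, Fintype.card_fin]
  have hker : LinearMap.ker A.mulVecLin = perp q W := by
    ext v
    rw [LinearMap.mem_ker, mem_perp]
    constructor
    · intro hv u hu
      have hbi : ∀ i, h q v (b i : W) = 0 := by
        intro i
        have := congrFun hv i
        simp only [Matrix.mulVecLin_apply, Matrix.mulVec, dotProduct, Pi.zero_apply, A] at this
        rw [h, ← this]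
        exact Finset.sum_congr rfl fun j _ => mul_comm _ _
      have hsum := b.sum_repr ⟨u, hu⟩
      have hsum' : ∑ i, (b.repr ⟨u, hu⟩ i) • ((b i : W) : Fin 10 → F) = u := by
        have := congrArg (Subtype.val) hsum
        rw [Submodule.coe_sum] at this
        simpa using this
      rw [← hsum']
      have key : ∀ s : Finset (Fin (Module.finrank F W)),
          h q v (∑ i ∈ s, (b.repr ⟨u, hu⟩ i) • ((b i : W) : Fin 10 → F)) = 0 := by
        intro s
        induction s using Finset.induction_on with
        | empty => simp [h_zero_right hF]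
        | insert a s ha ih =>
          rw [Finset.sum_insert ha, h_add_right hF, ih, h_smul_right hF, hbi]
          simp
      exact key _
    · intro hv
      funext i
      simp only [Matrix.mulVecLin_apply, Matrix.mulVec, dotProduct, Pi.zero_apply, A]
      rw [← hv (b i : W) (b i : W).2, h]
      exact Finset.sum_congr rfl fun j _ => mul_comm _ _
  have h6 := LinearMap.finrank_range_add_finrank_ker A.mulVecLin
  rw [hker, Module.finrank_fin_fun] at h6
  have h7 : Module.finrank F (LinearMap.range A.mulVecLin) = Module.finrank F W := hrank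
  omega

open Classical in
theorem card_mem (hF : Fintype.card F = q ^ 2) (W : Submodule F (Fin 10 → F)) :
    (univ.filter (fun x : Fin 10 → F => x ∈ W)).card = q ^ (2 * Module.finrank F W) := by
  rw [← Fintype.card_subtype]
  have h1 : Fintype.card W = Fintype.card F ^ Module.finrank F W := Module.card_eq_pow_finrank
  rw [pow_mul, ← hF, ← h1]

end Pool.Agent.Helper76.Herm
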