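import Pool.Agent.Helper76.Herm

set_option linter.unusedSectionVars false

namespace Pool.Agent.Helper76.Herm

open Finset Classical

variable {F : Type} [Field F] [Fintype F] {q : ℕ} {M : Finset (Submodule F (Fin 10 → F))}

/-- The hypotheses on the set `M` of planes. -/
structure Sys (F : Type) [Field F] [Fintype F] (q : ℕ)
    (M : Finset (Submodule F (Fin 10 → F))) : Prop where
  hF : Fintype.card F = q ^ 2
  card : M.card = q ^ 9 + 1
  dim : ∀ π ∈ M, Module.finrank F π = 3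
  iso : ∀ π ∈ M, ∀ x ∈ π, ∀ y ∈ π, h q x y = 0
  opp : ∀ π ∈ M, ∀ π' ∈ M, π ≠ π' → ∀ v ∈ π', (∀ u ∈ π, h q u v = 0) → v = 0
  blt : ∀ L : Submodule F (Fin 10 → F), Module.finrank F L = 2 →
    (∀ x ∈ L, ∀ y ∈ L, h q x y = 0) →
    ∀ a ∈ M, ∀ b ∈ M, ∀ c ∈ M, a ≠ b → a ≠ c → b ≠ c →
      ¬ (L ⊓ a ≠ ⊥ ∧ L ⊓ b ≠ ⊥ ∧ L ⊓ c ≠ ⊥)

theorem Sys.le_perp (S : Sys F q M) {π : Submodule F (Fin 10 → F)} (hπ : π ∈ M) :
    π ≤ perp q π := fun x hx u hu => S.iso π hπ x hx u hu

theorem Sys.perp_zero (S : Sys F q M) {π π' : Submodule F (Fin 10 → F)} (hπ : π ∈ M)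
    (hπ' : π' ∈ M) (hne : π ≠ π') {v : Fin 10 → F} (hv : v ∈ π') (hv' : v ∈ perp q π) : v = 0 :=
  S.opp π hπ π' hπ' hne v hv fun u hu => h_swap_zero S.hF (hv' u hu)

theorem Sys.disj (S : Sys F q M) {π π' : Submodule F (Fin 10 → F)} (hπ : π ∈ M)
    (hπ' : π' ∈ M) (hne : π ≠ π') {v : Fin 10 → F} (hv : v ∈ π') (hv' : v ∈ π) : v = 0 :=
  S.perp_zero hπ hπ' hne hv (S.le_perp hπ hv')

theorem mem_perp_span {w v : Fin 10 → F} (hF : Fintype.card F = q ^ 2) :
    v ∈ perp q (Submodule.span F {w}) ↔ h q v w = 0 := by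
  constructor
  · intro hv
    exact hv w (Submodule.mem_span_singleton_self w)
  · intro hv u hu
    obtain ⟨c, rfl⟩ := Submodule.mem_span_singleton.1 hu
    rw [h_smul_right hF, hv, mul_zero]

theorem perp_sup (hF : Fintype.card F = q ^ 2) (W W' : Submodule F (Fin 10 → F)) :
    perp q (W ⊔ W') = perp q W ⊓ perp q W' := by
  ext v
  rw [Submodule.mem_inf]
  constructor
  · intro hv
    exact ⟨fun u hu => hv u (Submodule.mem_sup_left hu),
      fun u hu => hv u (Submodule.mem_sup_right hu)⟩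
  · rintro ⟨h1, h2⟩ u hu
    obtain ⟨a, ha, b, hb, rfl⟩ := Submodule.mem_sup.1 hu
    rw [h_add_right hF, h1 a ha, h2 b hb, add_zero]

theorem finrank_perp_span (hF : Fintype.card F = q ^ 2) {w : Fin 10 → F} (hw : w ≠ 0) :
    Module.finrank F (perp q (Submodule.span F {w})) = 9 := by
  have h1 := finrank_perp hF (Submodule.span F {w})
  rw [finrank_span_singleton hw] at h1
  omega

theorem Sys.finrank_perp (S : Sys F q M) {π : Submodule F (Fin 10 → F)} (hπ : π ∈ M) :
    Module.finrank F (perp q π) = 7 := by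
  have h1 := Herm.finrank_perp S.hF π
  rw [S.dim π hπ] at h1
  omega

theorem Sys.finrank_perp_inf (S : Sys F q M) {π : Submodule F (Fin 10 → F)} (hπ : π ∈ M)
    {w : Fin 10 → F} (hw : w ∉ π) :
    Module.finrank F (perp q π ⊓ perp q (Submodule.span F {w}) :
      Submodule F (Fin 10 → F)) = 6 := by
  rw [← perp_sup S.hF]
  have h1 := Herm.finrank_perp S.hF (π ⊔ Submodule.span F {w})
  rw [Submodule.finrank_sup_span_singleton hw, S.dim π hπ] at h1
  omega

/-- The intersection of a plane with a hyperplane not containing it. -/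
theorem Sys.finrank_inf (S : Sys F q M) {π : Submodule F (Fin 10 → F)} (hπ : π ∈ M)
    {w : Fin 10 → F} (hw : w ∉ perp q π) :
    Module.finrank F (π ⊓ perp q (Submodule.span F {w}) : Submodule F (Fin 10 → F)) = 2 := by
  have hw0 : w ≠ 0 := by
    rintro rfl
    exact hw (perp q π).zero_mem
  have h1 := Submodule.finrank_sup_add_finrank_inf_eq π (perp q (Submodule.span F {w}))
  rw [S.dim π hπ, finrank_perp_span S.hF hw0] at h1
  have h2 : perp q (Submodule.span F {w}) < π ⊔ perp q (Submodule.span F {w}) := by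
    rw [right_lt_sup]
    intro hle
    apply hw
    intro u hu
    exact h_swap_zero S.hF ((mem_perp_span S.hF).1 (hle hu))
  have h3 := Submodule.finrank_lt_finrank_of_lt h2
  rw [finrank_perp_span S.hF hw0] at h3
  have h4 := Submodule.finrank_le (π ⊔ perp q (Submodule.span F {w}))
  rw [Module.finrank_fin_fun] at h4
  omega

theorem Sys.inf_of_mem (S : Sys F q M) {π : Submodule F (Fin 10 → F)}
    {w : Fin 10 → F} (hw : w ∈ perp q π) :
    π ⊓ perp q (Submodule.span F {w}) = π := by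
  rw [inf_eq_left]
  intro u hu
  rw [mem_perp_span S.hF]
  exact h_swap_zero S.hF (hw u hu)

/-- Nonzero vectors of the members other than `π`, lying in `W`. -/
noncomputable def NN (M : Finset (Submodule F (Fin 10 → F))) (π W : Submodule F (Fin 10 → F)) :
    Finset (Fin 10 → F) :=
  univ.filter fun x => x ≠ 0 ∧ x ∈ W ∧ ∃ π' ∈ M, π' ≠ π ∧ x ∈ π'

theorem card_nonzero (hF : Fintype.card F = q ^ 2) (W : Submodule F (Fin 10 → F)) :
    (univ.filter (fun x : Fin 10 → F => x ≠ 0 ∧ x ∈ W)).card =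
      q ^ (2 * Module.finrank F W) - 1 := by
  rw [← card_mem hF W]
  have : (univ.filter (fun x : Fin 10 → F => x ≠ 0 ∧ x ∈ W)) =
      (univ.filter (fun x : Fin 10 → F => x ∈ W)).erase 0 := by
    ext x
    simp
  rw [this, Finset.card_erase_of_mem]
  simp

theorem Sys.card_NN (S : Sys F q M) {π : Submodule F (Fin 10 → F)} (hπ : π ∈ M)
    (W : Submodule F (Fin 10 → F)) :
    (NN M π W).card =
      ∑ π' ∈ M.erase π, (q ^ (2 * Module.finrank F (π' ⊓ W : Submodule F (Fin 10 → F))) - 1) := by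
  have h1 : NN M π W = (M.erase π).biUnion fun π' =>
      univ.filter (fun x : Fin 10 → F => x ≠ 0 ∧ x ∈ π' ⊓ W) := by
    ext x
    simp only [NN, mem_filter, mem_univ, true_and, mem_biUnion, mem_erase, Submodule.mem_inf]
    constructor
    · rintro ⟨h0, hW, π', hπ', hne, hx⟩
      exact ⟨π', ⟨hne, hπ'⟩, h0, hx, hW⟩
    · rintro ⟨π', ⟨hne, hπ'⟩, h0, hx, hW⟩
      exact ⟨h0, hW, π', hπ', hne, hx⟩
  rw [h1, Finset.card_biUnion]
  · exact Finset.sum_congr rfl fun π' _ => card_nonzero S.hF _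
  · intro a ha b hb hab
    rw [Function.onFun, Finset.disjoint_left]
    intro x hx hx'
    simp only [mem_filter, mem_univ, true_and, Submodule.mem_inf] at hx hx'
    exact hx.1 (S.disj (Finset.mem_of_mem_erase ha) (Finset.mem_of_mem_erase hb) hab
      hx'.2.1 hx.2.1)

theorem card_trace_le (hF : Fintype.card F = q ^ 2) (a : F) :
    (univ.filter (fun c : F => c + c ^ q = a)).card ≤ q := by
  have hq := two_le hF
  let P : Polynomial F := Polynomial.X ^ q + (Polynomial.X - Polynomial.C a)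
  have hdeg : P.natDegree = q := by
    apply Polynomial.natDegree_eq_of_degree_eq_some
    rw [Polynomial.degree_add_eq_left_of_degree_lt]
    · exact Polynomial.degree_X_pow q
    · rw [Polynomial.degree_X_pow, Polynomial.degree_X_sub_C]
      exact_mod_cast (by omega : 1 < q)
  have hP0 : P ≠ 0 := by
    intro h0
    rw [h0, Polynomial.natDegree_zero] at hdeg
    omega
  have hsub : (univ.filter (fun c : F => c + c ^ q = a)) ⊆ P.roots.toFinset := by
    intro c hc
    simp only [mem_filter, mem_univ, true_and] at hc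
    rw [Multiset.mem_toFinset, Polynomial.mem_roots hP0, Polynomial.IsRoot.def]
    simp only [P, Polynomial.eval_add, Polynomial.eval_pow, Polynomial.eval_X,
      Polynomial.eval_sub, Polynomial.eval_C]
    rw [← hc]
    ring
  calc _ ≤ P.roots.toFinset.card := Finset.card_le_card hsub
    _ ≤ P.roots.card := Multiset.toFinset_card_le _
    _ ≤ P.natDegree := Polynomial.card_roots' P
    _ = q := hdeg

/-- Pairs `(y, x)` with `y ∈ π` and `x` a nonzero vector of another member. -/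
noncomputable def TT (M : Finset (Submodule F (Fin 10 → F))) (π : Submodule F (Fin 10 → F)) :
    Finset ((Fin 10 → F) × (Fin 10 → F)) :=
  (univ.filter (fun y : Fin 10 → F => y ∈ π)) ×ˢ (NN M π ⊤)

theorem mem_TT {π : Submodule F (Fin 10 → F)} {p : (Fin 10 → F) × (Fin 10 → F)} :
    p ∈ TT M π ↔ p.1 ∈ π ∧ p.2 ≠ 0 ∧ ∃ π' ∈ M, π' ≠ π ∧ p.2 ∈ π' := by
  simp [TT, NN]

/-- Vectors outside the orthogonal complement of `π`. -/
noncomputable def CC (q : ℕ) (π : Submodule F (Fin 10 → F)) : Finset (Fin 10 → F) :=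
  univ.filter (fun u : Fin 10 → F => u ∉ perp q π)

theorem Sys.mapsTo (S : Sys F q M) {π : Submodule F (Fin 10 → F)} (hπ : π ∈ M)
    {p : (Fin 10 → F) × (Fin 10 → F)} (hp : p ∈ TT M π) : p.1 + p.2 ∈ CC q π := by
  obtain ⟨h1, h2, π', hπ', hne, h3⟩ := mem_TT.1 hp
  simp only [CC, mem_filter, mem_univ, true_and]
  intro hcon
  apply h2
  apply S.perp_zero hπ hπ' hne.symm h3
  have : p.2 = (p.1 + p.2) - p.1 := by abel
  rw [this]
  exact (perp q π).sub_mem hcon (S.le_perp hπ h1)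

theorem Sys.fiber_le (S : Sys F q M) {π : Submodule F (Fin 10 → F)} (hπ : π ∈ M)
    (u : Fin 10 → F) : ((TT M π).filter (fun p => p.1 + p.2 = u)).card ≤ q := by
  refine le_trans ?_ (card_trace_le S.hF (h q u u))
  apply Finset.card_le_card_of_injOn (fun p => h q p.1 p.2)
  · intro p hp
    simp only [Finset.coe_filter, Set.mem_ofPred_eq, mem_univ, true_and] at hp ⊢
    obtain ⟨hp, hu⟩ := hp
    obtain ⟨h1, h2, π', hπ', hne, h3⟩ := mem_TT.1 hp
    rw [← hu, h_add_left, h_add_right S.hF, h_add_right S.hF, S.iso π hπ _ h1 _ h1,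
      S.iso π' hπ' _ h3 _ h3, h_swap S.hF p.1 p.2]
    ring
  · intro p hp p' hp' heq
    simp only [Finset.coe_filter, Set.mem_ofPred_eq] at hp hp'
    obtain ⟨hp, hu⟩ := hp
    obtain ⟨hp', hu'⟩ := hp'
    obtain ⟨h1, h2, π1, hπ1, hne1, h3⟩ := mem_TT.1 hp
    obtain ⟨h1', h2', π2, hπ2, hne2, h3'⟩ := mem_TT.1 hp'
    by_contra hcon
    have hx : p.2 ≠ p'.2 := by
      intro hx
      apply hcon
      apply Prod.ext _ hx
      have : p.1 + p.2 = p'.1 + p'.2 := hu.trans hu'.symm
      rw [hx] at this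
      exact add_right_cancel this
    have hd : p.2 - p'.2 = p'.1 - p.1 := by
      have : p.1 + p.2 = p'.1 + p'.2 := hu.trans hu'.symm
      have e1 : p.2 - p'.2 = (p.1 + p.2) - p.1 - p'.2 := by abel
      rw [e1, this]
      abel
    have hdπ : p.2 - p'.2 ∈ π := by
      rw [hd]
      exact π.sub_mem h1' h1
    have hd0 : p.2 - p'.2 ≠ 0 := sub_ne_zero.2 hx
    have h12 : π1 ≠ π2 := by
      rintro rfl
      exact hd0 (S.disj hπ hπ1 hne1.symm (π1.sub_mem h3 h3') hdπ)
    -- the scalar product of the two vectors vanishes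
    have hzero : h q p.2 p'.2 = 0 := by
      have e1 : p'.2 = p.2 - (p'.1 - p.1) := by rw [← hd]; abel
      have e2 : h q p.2 p'.2 = h q p.2 p.2 - (h q p.2 p'.1 - h q p.2 p.1) := by
        conv_lhs => rw [e1]
        rw [h_sub_right S.hF, h_sub_right S.hF]
      have e3 : h q p.2 p.2 = 0 := S.iso π1 hπ1 _ h3 _ h3
      have e4 : h q p.2 p'.1 = h q p'.2 p'.1 := by
        have : p.2 = (p'.1 - p.1) + p'.2 := by rw [← hd]; abel
        rw [this, h_add_left, h_sub_left, S.iso π hπ _ h1' _ h1', S.iso π hπ _ h1 _ h1']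
        ring
      have e5 : h q p.2 p.1 = (h q p.1 p.2) ^ q := h_swap S.hF _ _
      have e6 : h q p'.2 p'.1 = (h q p'.1 p'.2) ^ q := h_swap S.hF _ _
      have e7 : h q p.1 p.2 = h q p'.1 p'.2 := heq
      rw [e2, e3, e4, e5, e6, e7]
      ring
    have hzero' : h q p'.2 p.2 = 0 := h_swap_zero S.hF hzero
    let L : Submodule F (Fin 10 → F) := Submodule.span F {p.2} ⊔ Submodule.span F {p'.2}
    have hL2 : Module.finrank F L = 2 := by
      have hnot : p'.2 ∉ Submodule.span F {p.2} := by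
        intro hmem
        have : p'.2 ∈ π1 := (Submodule.span_singleton_le_iff_mem _ _).2 h3 hmem
        exact h2' (S.disj hπ1 hπ2 h12 h3' this)
      rw [Submodule.finrank_sup_span_singleton hnot, finrank_span_singleton h2]
    have hLiso : ∀ x ∈ L, ∀ y ∈ L, h q x y = 0 := by
      intro x hx y hy
      obtain ⟨a, ha, b, hb, rfl⟩ := Submodule.mem_sup.1 hx
      obtain ⟨c, hc, d, hd, rfl⟩ := Submodule.mem_sup.1 hy
      obtain ⟨a', rfl⟩ := Submodule.mem_span_singleton.1 ha
      obtain ⟨b', rfl⟩ := Submodule.mem_span_singleton.1 hb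
      obtain ⟨c', rfl⟩ := Submodule.mem_span_singleton.1 hc
      obtain ⟨d', rfl⟩ := Submodule.mem_span_singleton.1 hd
      simp only [h_add_left, h_add_right S.hF, h_smul_left, h_smul_right S.hF,
        S.iso π1 hπ1 _ h3 _ h3, S.iso π2 hπ2 _ h3' _ h3', hzero, hzero']
      ring
    have hp2L : p.2 ∈ L := Submodule.mem_sup_left (Submodule.mem_span_singleton_self _)
    have hp2L' : p'.2 ∈ L := Submodule.mem_sup_right (Submodule.mem_span_singleton_self _)
    refine S.blt L hL2 hLiso π1 hπ1 π2 hπ2 π hπ h12 hne1 hne2 ⟨?_, ?_, ?_⟩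
    · rw [Submodule.ne_bot_iff]
      exact ⟨p.2, ⟨hp2L, h3⟩, h2⟩
    · rw [Submodule.ne_bot_iff]
      exact ⟨p'.2, ⟨hp2L', h3'⟩, h2'⟩
    · rw [Submodule.ne_bot_iff]
      exact ⟨p.2 - p'.2, ⟨L.sub_mem hp2L hp2L', hdπ⟩, hd0⟩

end Pool.Agent.Helper76.Herm
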