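import Pool.Agent.Helper76.Herm2

set_option linter.unusedSectionVars false

namespace Pool.Agent.Helper76.Herm

open Finset Classical

variable {F : Type} [Field F] [Fintype F] {q : ℕ} {M : Finset (Submodule F (Fin 10 → F))}

theorem card_mem' (hF : Fintype.card F = q ^ 2) (W : Submodule F (Fin 10 → F)) {r s : ℕ}
    (hr : Module.finrank F W = r) (hs : 2 * r = s) :
    (univ.filter (fun x : Fin 10 → F => x ∈ W)).card = q ^ s := by
  rw [card_mem hF, hr, hs]

theorem card_vec (hF : Fintype.card F = q ^ 2) : (univ : Finset (Fin 10 → F)).card = q ^ 20 := by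
  rw [Finset.card_univ, Fintype.card_pi]
  simp only [hF, Finset.prod_const, Finset.card_univ, Fintype.card_fin]
  ring

theorem Sys.card_CC (S : Sys F q M) {π : Submodule F (Fin 10 → F)} (hπ : π ∈ M) :
    (CC q π).card + q ^ 14 = q ^ 20 := by
  have h1 := Finset.card_filter_add_card_filter_not (s := (univ : Finset (Fin 10 → F)))
    (fun u => u ∈ perp q π)
  rw [card_mem' S.hF _ (S.finrank_perp hπ) (show 2 * 7 = 14 from rfl), card_vec S.hF] at h1
  have h2 : (CC q π).card = (univ.filter (fun u : Fin 10 → F => ¬ u ∈ perp q π)).card := rfl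
  rw [h2]
  omega

theorem Sys.card_NN_top (S : Sys F q M) {π : Submodule F (Fin 10 → F)} (hπ : π ∈ M) :
    (NN M π ⊤).card = q ^ 9 * (q ^ 6 - 1) := by
  rw [S.card_NN hπ]
  have h1 : ∀ π' ∈ M.erase π,
      q ^ (2 * Module.finrank F (π' ⊓ ⊤ : Submodule F (Fin 10 → F))) - 1 = q ^ 6 - 1 := by
    intro π' hπ'
    rw [inf_top_eq, S.dim π' (Finset.mem_of_mem_erase hπ')]
  rw [Finset.sum_congr rfl h1, Finset.sum_const, Finset.card_erase_of_mem hπ, S.card]
  simp

theorem Sys.card_TT (S : Sys F q M) {π : Submodule F (Fin 10 → F)} (hπ : π ∈ M) :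
    (TT M π).card = q * (CC q π).card := by
  have h1 := S.card_CC hπ
  rw [TT, Finset.card_product, card_mem S.hF, S.dim π hπ, S.card_NN_top hπ]
  have h2 : (CC q π).card = q ^ 20 - q ^ 14 := by omega
  rw [h2, Nat.mul_sub, Nat.mul_sub, Nat.mul_sub]
  congr 1 <;> ring

/-- Every vector outside `π^⊥` is hit exactly `q` times. -/
theorem Sys.fiber_eq (S : Sys F q M) {π : Submodule F (Fin 10 → F)} (hπ : π ∈ M)
    {u : Fin 10 → F} (hu : u ∈ CC q π) :
    ((TT M π).filter (fun p => p.1 + p.2 = u)).card = q := by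
  have h1 := Finset.card_eq_sum_card_fiberwise (f := fun p : (Fin 10 → F) × (Fin 10 → F) =>
    p.1 + p.2) (s := TT M π) (t := CC q π) (fun p hp => S.mapsTo hπ hp)
  have h2 : ∑ b ∈ CC q π, ((TT M π).filter (fun p => p.1 + p.2 = b)).card =
      ∑ b ∈ CC q π, q := by
    rw [← h1, S.card_TT hπ, Finset.sum_const, smul_eq_mul, mul_comm]
  exact (Finset.sum_eq_sum_iff_of_le (fun b _ => S.fiber_le hπ b)).1 h2 u hu

theorem Sys.count_B (S : Sys F q M) {π : Submodule F (Fin 10 → F)} (hπ : π ∈ M)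
    {w : Fin 10 → F} (hw : w ∈ perp q π) (hw' : w ∉ π) :
    (NN M π (perp q (Submodule.span F {w}))).card + q ^ 7 = q ^ 13 := by
  have hw0 : w ≠ 0 := by
    rintro rfl
    exact hw' π.zero_mem
  -- the pairs whose sum is orthogonal to `w`
  let T' := (TT M π).filter (fun p => p.1 + p.2 ∈ perp q (Submodule.span F {w}))
  have h1 : T' = (univ.filter (fun y : Fin 10 → F => y ∈ π)) ×ˢ
      (NN M π (perp q (Submodule.span F {w}))) := by
    ext p
    simp only [T', mem_filter, mem_TT, Finset.mem_product, mem_univ, true_and, NN]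
    have hiff : p.1 ∈ π → (p.1 + p.2 ∈ perp q (Submodule.span F {w}) ↔
        p.2 ∈ perp q (Submodule.span F {w})) := by
      intro hp
      rw [mem_perp_span S.hF, mem_perp_span S.hF, h_add_left, h_swap_zero S.hF (hw _ hp), zero_add]
    constructor
    · rintro ⟨⟨ha, hb, hc⟩, hd⟩
      exact ⟨ha, hb, (hiff ha).1 hd, hc⟩
    · rintro ⟨ha, hb, hc, hd⟩
      exact ⟨⟨ha, hb, hd⟩, (hiff ha).2 hc⟩
  have h2 : T'.card = q ^ 6 * (NN M π (perp q (Submodule.span F {w}))).card := by
    rw [h1, Finset.card_product, card_mem S.hF, S.dim π hπ]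
  let D := (CC q π).filter (fun u => u ∈ perp q (Submodule.span F {w}))
  have h3 : T'.card = D.card * q := by
    have e1 := Finset.card_eq_sum_card_fiberwise (f := fun p : (Fin 10 → F) × (Fin 10 → F) =>
      p.1 + p.2) (s := T') (t := D) (by
        intro p hp
        rw [Finset.mem_coe, Finset.mem_filter] at hp
        rw [Finset.mem_coe, Finset.mem_filter]
        exact ⟨S.mapsTo hπ hp.1, hp.2⟩)
    rw [e1]
    have e2 : ∀ b ∈ D, (T'.filter (fun p => p.1 + p.2 = b)).card = q := by
      intro b hb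
      rw [Finset.mem_filter] at hb
      rw [← S.fiber_eq hπ hb.1]
      congr 1
      ext p
      simp only [T', mem_filter]
      constructor
      · rintro ⟨⟨ha, hb⟩, hc⟩
        exact ⟨ha, hc⟩
      · rintro ⟨ha, hc⟩
        exact ⟨⟨ha, hc ▸ hb.2⟩, hc⟩
    rw [Finset.sum_congr rfl e2, Finset.sum_const, smul_eq_mul]
  have h4 : D.card + q ^ 12 = q ^ 18 := by
    have e1 := Finset.card_filter_add_card_filter_not
      (s := univ.filter (fun u : Fin 10 → F => u ∈ perp q (Submodule.span F {w})))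
      (fun u => u ∈ perp q π)
    rw [card_mem' S.hF _ (finrank_perp_span S.hF hw0) (show 2 * 9 = 18 from rfl),
      Finset.filter_filter, Finset.filter_filter] at e1
    have e2 : (univ.filter (fun u : Fin 10 → F => u ∈ perp q (Submodule.span F {w}) ∧
        u ∈ perp q π)).card = q ^ 12 := by
      have := card_mem' S.hF (perp q π ⊓ perp q (Submodule.span F {w}))
        (S.finrank_perp_inf hπ hw') (show 2 * 6 = 12 from rfl)
      rw [← this]
      congr 1
      ext u
      simp only [mem_filter, mem_univ, true_and, Submodule.mem_inf]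
      tauto
    have e3 : D.card = (univ.filter (fun u : Fin 10 → F =>
        u ∈ perp q (Submodule.span F {w}) ∧ ¬ u ∈ perp q π)).card := by
      congr 1
      ext u
      simp only [D, CC, mem_filter, mem_univ, true_and]
      tauto
    rw [← e3, e2] at e1
    omega
  have hq := two_le S.hF
  have hqpos : 0 < q ^ 6 := by positivity
  apply Nat.eq_of_mul_eq_mul_left hqpos
  rw [Nat.mul_add, ← h2, h3]
  calc D.card * q + q ^ 6 * q ^ 7 = (D.card + q ^ 12) * q := by ring
    _ = q ^ 6 * q ^ 13 := by rw [h4]; ring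

/-- A vector of `π^⊥` not in `π` is orthogonal to exactly `q ^ 3 + 1` members. -/
theorem Sys.count_perp (S : Sys F q M) {π : Submodule F (Fin 10 → F)} (hπ : π ∈ M)
    {w : Fin 10 → F} (hw : w ∈ perp q π) (hw' : w ∉ π) :
    (M.filter (fun π' => w ∈ perp q π')).card = q ^ 3 + 1 := by
  have h1 := S.count_B hπ hw hw'
  rw [S.card_NN hπ] at h1
  have hq := two_le S.hF
  have h2 : ∀ π' ∈ M.erase π,
      q ^ (2 * Module.finrank F (π' ⊓ perp q (Submodule.span F {w}) :
        Submodule F (Fin 10 → F))) - 1 =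
      (q ^ 4 - 1) + (if w ∈ perp q π' then q ^ 6 - q ^ 4 else 0) := by
    intro π' hπ'
    have hm := Finset.mem_of_mem_erase hπ'
    have e1 : 1 ≤ q ^ 4 := Nat.one_le_pow _ _ (by omega)
    have e2 : q ^ 4 ≤ q ^ 6 := Nat.pow_le_pow_right (by omega) (by norm_num)
    by_cases hc : w ∈ perp q π'
    · rw [if_pos hc, S.inf_of_mem hc, S.dim π' hm, show 2 * 3 = 6 from rfl]
      omega
    · rw [if_neg hc, S.finrank_inf hm hc, show 2 * 2 = 4 from rfl, add_zero]
  rw [Finset.sum_congr rfl h2, Finset.sum_add_distrib, Finset.sum_const,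
    Finset.card_erase_of_mem hπ, S.card, ← Finset.sum_filter, Finset.sum_const] at h1
  simp only [add_tsub_cancel_right, smul_eq_mul] at h1
  have h3 : ((M.erase π).filter (fun π' => w ∈ perp q π')).card + 1 =
      (M.filter (fun π' => w ∈ perp q π')).card := by
    rw [Finset.filter_erase]
    exact Finset.card_erase_add_one (Finset.mem_filter.2 ⟨hπ, hw⟩)
  rw [← h3]
  generalize ((M.erase π).filter (fun π' => w ∈ perp q π')).card = a at h1 ⊢
  congr 1
  have e1 : 1 ≤ q ^ 4 := Nat.one_le_pow _ _ (by omega)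
  have e2 : q ^ 4 ≤ q ^ 6 := Nat.pow_le_pow_right (by omega) (by norm_num)
  zify [e1, e2] at h1 ⊢
  have hq' : (2 : ℤ) ≤ q := by exact_mod_cast hq
  have h4 : (q : ℤ) ^ 4 * ((q : ℤ) ^ 2 - 1) * ((a : ℤ) - (q : ℤ) ^ 3) = 0 := by
    linear_combination h1
  have h5 : (q : ℤ) ^ 4 * ((q : ℤ) ^ 2 - 1) ≠ 0 := by
    apply mul_ne_zero
    · positivity
    · nlinarith
  rcases mul_eq_zero.1 h4 with h6 | h6
  · exact absurd h6 h5
  · linarith

end Pool.Agent.Helper76.Herm
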