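import Pool.Agent.Helper76.Herm3

set_option linter.unusedSectionVars false

namespace Pool.Agent.Helper76.Herm

open Finset Classical

variable {F : Type} [Field F] [Fintype F] {q : ℕ} {M : Finset (Submodule F (Fin 10 → F))}

/-- A set of nonzero vectors closed under nonzero scalars has size divisible by `|F| - 1`. -/
theorem dvd_card_of_smul (Y : Finset (Fin 10 → F)) (h0 : (0 : Fin 10 → F) ∉ Y)
    (hs : ∀ c : Fˣ, ∀ y ∈ Y, c • y ∈ Y) : Fintype.card F - 1 ∣ Y.card := by
  rw [Finset.card_eq_sum_card_image (fun y => (Quotient.mk (MulAction.orbitRel Fˣ (Fin 10 → F)) y)) Y]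
  apply Finset.dvd_sum
  intro b hb
  obtain ⟨y, hy, rfl⟩ := Finset.mem_image.1 hb
  have hy0 : y ≠ 0 := by
    rintro rfl
    exact h0 hy
  have h1 : (Y.filter (fun z => Quotient.mk (MulAction.orbitRel Fˣ (Fin 10 → F)) z =
      Quotient.mk (MulAction.orbitRel Fˣ (Fin 10 → F)) y)) =
      (univ : Finset Fˣ).image (fun c => c • y) := by
    ext z
    simp only [mem_filter, mem_image, mem_univ, true_and]
    constructor
    · rintro ⟨-, hz⟩
      have h2 := Quotient.exact hz
      exact h2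
    · rintro ⟨c, rfl⟩
      refine ⟨hs c y hy, ?_⟩
      apply Quotient.sound
      exact ⟨c, rfl⟩
  rw [h1, Finset.card_image_of_injective]
  · rw [Finset.card_univ, Fintype.card_units]
  · intro c d hcd
    have h2 : ((c : F) - (d : F)) • y = 0 := by
      rw [sub_smul]
      exact sub_eq_zero.2 hcd
    rcases smul_eq_zero.1 h2 with h3 | h3
    · exact Units.ext (sub_eq_zero.1 h3)
    · exact absurd h3 hy0

theorem arith (q m : ℕ) (hq : 2 ≤ q)
    (hm : (q ^ 3 + 1) * ((q ^ 2 - 1) * m) + q ^ 6 + q ^ 13 = q ^ 14 + q ^ 21) : False := by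
  have e1 : 1 ≤ q ^ 2 := Nat.one_le_pow _ _ (by omega)
  have hqz : (2 : ℤ) ≤ q := by exact_mod_cast hq
  zify [e1] at hm
  set x : ℤ := (q : ℤ) with hx
  have h1 : (x ^ 2 - 1) * ((x ^ 3 + 1) * m - x ^ 6 * (x ^ 7 + 1) * (x ^ 6 + x ^ 4 + x ^ 2 + 1)) = 0 := by
    linear_combination hm
  have h2 : x ^ 2 - 1 ≠ 0 := by nlinarith
  rcases mul_eq_zero.1 h1 with h3 | h3
  · exact h2 h3
  · have h4 : (x ^ 3 + 1) ∣ x + 1 := by
      refine ⟨(m : ℤ) - (-1 - x + x ^ 3 + x ^ 4 - x ^ 7 + x ^ 8 + 2 * x ^ 10 - x ^ 11 + x ^ 12 -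
        x ^ 13 + x ^ 14 + x ^ 16), ?_⟩
      linear_combination (-1 : ℤ) * h3
    have h5 := Int.le_of_dvd (by linarith) h4
    nlinarith [mul_nonneg (show (0 : ℤ) ≤ x by linarith) (show (0 : ℤ) ≤ x - 2 by linarith)]

theorem Sys.contradiction (S : Sys F q M) : False := by
  have hq := two_le S.hF
  obtain ⟨π, hπ⟩ : M.Nonempty := by
    rw [← Finset.card_pos, S.card]
    omega
  obtain ⟨v, hv, hv0⟩ : ∃ v ∈ π, v ≠ 0 := by
    apply (Submodule.ne_bot_iff π).1
    rintro rfl
    have := S.dim ⊥ hπ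
    rw [finrank_bot] at this
    omega
  let Y : Finset (Fin 10 → F) := univ.filter (fun w =>
    w ∈ perp q (Submodule.span F {v}) ∧ ∃ π' ∈ M, w ∈ perp q π' ∧ w ∉ π')
  have hY : ∀ w, w ∈ Y ↔ w ∈ perp q (Submodule.span F {v}) ∧
      ∃ π' ∈ M, w ∈ perp q π' ∧ w ∉ π' := by
    intro w
    simp [Y]
  have hpairs := Finset.sum_card_bipartiteAbove_eq_sum_card_bipartiteBelow
    (s := Y) (t := M) (fun w π' => w ∈ perp q π' ∧ w ∉ π')
  simp only [Finset.bipartiteAbove, Finset.bipartiteBelow] at hpairs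
  -- left side
  have hleft : ∀ w ∈ Y, (M.filter (fun π' => w ∈ perp q π' ∧ w ∉ π')).card = q ^ 3 + 1 := by
    intro w hw
    obtain ⟨-, π0, hπ0, hw1, hw2⟩ := (hY w).1 hw
    rw [← S.count_perp hπ0 hw1 hw2]
    congr 1
    ext π'
    simp only [mem_filter]
    constructor
    · rintro ⟨h1, h2, h3⟩
      exact ⟨h1, h2⟩
    · rintro ⟨h1, h2⟩
      refine ⟨h1, h2, ?_⟩
      intro h3
      have hne : π0 ≠ π' := by
        rintro rfl
        exact hw2 h3
      have := S.perp_zero hπ0 h1 hne h3 hw1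
      rw [this] at hw2
      exact hw2 π0.zero_mem
  rw [Finset.sum_congr rfl hleft, Finset.sum_const, smul_eq_mul] at hpairs
  -- right side
  have hright : ∀ π' ∈ M, (Y.filter (fun w => w ∈ perp q π' ∧ w ∉ π')).card +
      (if π' = π then q ^ 6 else q ^ 4) = if π' = π then q ^ 14 else q ^ 12 := by
    intro π' hπ'
    have e1 := Finset.card_filter_add_card_filter_not
      (s := univ.filter (fun u : Fin 10 → F => u ∈ perp q (Submodule.span F {v}) ∧
        u ∈ perp q π')) (fun u => u ∈ π')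
    rw [Finset.filter_filter, Finset.filter_filter] at e1
    have e2 : (Y.filter (fun w => w ∈ perp q π' ∧ w ∉ π')) = univ.filter
        (fun u : Fin 10 → F => (u ∈ perp q (Submodule.span F {v}) ∧ u ∈ perp q π') ∧
          ¬ u ∈ π') := by
      ext u
      simp only [mem_filter, hY, mem_univ, true_and]
      constructor
      · rintro ⟨⟨h1, -⟩, h2, h3⟩
        exact ⟨⟨h1, h2⟩, h3⟩
      · rintro ⟨⟨h1, h2⟩, h3⟩
        exact ⟨⟨h1, π', hπ', h2, h3⟩, h2, h3⟩
    rw [← e2] at e1
    have e3 : (univ.filter (fun u : Fin 10 → F => (u ∈ perp q (Submodule.span F {v}) ∧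
        u ∈ perp q π') ∧ u ∈ π')) = univ.filter (fun u : Fin 10 → F =>
        u ∈ π' ⊓ perp q (Submodule.span F {v})) := by
      ext u
      simp only [mem_filter, mem_univ, true_and, Submodule.mem_inf]
      constructor
      · rintro ⟨⟨h1, -⟩, h2⟩
        exact ⟨h2, h1⟩
      · rintro ⟨h1, h2⟩
        exact ⟨⟨h2, S.le_perp hπ' h1⟩, h1⟩
    have e4 : (univ.filter (fun u : Fin 10 → F => u ∈ perp q (Submodule.span F {v}) ∧
        u ∈ perp q π')) = univ.filter (fun u : Fin 10 → F =>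
        u ∈ perp q π' ⊓ perp q (Submodule.span F {v})) := by
      ext u
      simp only [mem_filter, mem_univ, true_and, Submodule.mem_inf]
      exact and_comm
    rw [e3, e4] at e1
    by_cases hc : π' = π
    · subst hc
      rw [if_pos rfl, if_pos rfl]
      have f1 : perp q π' ⊓ perp q (Submodule.span F {v}) = perp q π' := by
        rw [inf_eq_left]
        intro u hu
        rw [mem_perp_span S.hF]
        exact hu v hv
      have f2 : π' ⊓ perp q (Submodule.span F {v}) = π' := S.inf_of_mem (S.le_perp hπ hv)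
      rw [f1, f2, card_mem' S.hF _ (S.dim _ hπ) (show 2 * 3 = 6 from rfl),
        card_mem' S.hF _ (S.finrank_perp hπ) (show 2 * 7 = 14 from rfl)] at e1
      omega
    · rw [if_neg hc, if_neg hc]
      have f1 : v ∉ π' := by
        intro h1
        exact hv0 (S.disj hπ hπ' (Ne.symm hc) h1 hv)
      have f2 : v ∉ perp q π' := by
        intro h1
        exact hv0 (S.perp_zero hπ' hπ hc hv h1)
      rw [card_mem' S.hF _ (S.finrank_inf hπ' f2) (show 2 * 2 = 4 from rfl),
        card_mem' S.hF _ (S.finrank_perp_inf hπ' f1) (show 2 * 6 = 12 from rfl)] at e1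
      omega
  have hsum := Finset.sum_congr rfl hright
  rw [Finset.sum_add_distrib, ← hpairs] at hsum
  have hs1 : ∀ a b : ℕ, ∑ π' ∈ M, (if π' = π then a else b) = a + q ^ 9 * b := by
    intro a b
    rw [← Finset.add_sum_erase M _ hπ, if_pos rfl]
    congr 1
    rw [Finset.sum_congr rfl (g := fun _ => b)]
    · rw [Finset.sum_const, Finset.card_erase_of_mem hπ, S.card]
      simp
    · intro x hx
      rw [if_neg (Finset.ne_of_mem_erase hx)]
  rw [hs1, hs1] at hsum
  have hdvd : Fintype.card F - 1 ∣ Y.card := by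
    apply dvd_card_of_smul
    · rw [hY]
      rintro ⟨-, π', -, -, h1⟩
      exact h1 π'.zero_mem
    · intro c y hy
      rw [hY] at hy ⊢
      obtain ⟨h1, π', h2, h3, h4⟩ := hy
      refine ⟨Submodule.smul_mem _ (c : F) h1, π', h2, Submodule.smul_mem _ (c : F) h3, ?_⟩
      intro h5
      apply h4
      exact (Submodule.smul_mem_iff_of_isUnit π' c.isUnit).1 h5
  obtain ⟨m, hm⟩ := hdvd
  rw [S.hF] at hm
  rw [hm] at hsum
  apply arith q m hq
  rw [← show q ^ 14 + q ^ 9 * q ^ 12 = q ^ 14 + q ^ 21 by ring, ← hsum]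
  ring

end Pool.Agent.Helper76.Herm
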